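import Pool.Agent.Q193.LT.Mod
import Pool.Agent.W5h68.BT.ClassDefs

/-!
# Étale motivic cohomology of schemes over finite fields: definitions
-/

set_option autoImplicit false

open CategoryTheory AlgebraicGeometry Pool.Agent.Y116.UV Pool.Agent.Q193.LT Pool.Agent.W5h68.SP

namespace Pool.Agent.W5h68.BT

/-- There are homomorphisms `M → N → M` whose composition is the multiplication by `d`. -/
def MulFactor (d : ℕ) (M N : ModuleCat.{0} ℤ) : Prop :=
  ∃ (s : M ⟶ N) (r : N ⟶ M), ∀ x : M, r.hom (s.hom x) = (d : ℤ) • x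

/-- The kernels of the multiplications by integers `d ≥ 1` on `M` are finitely generated. -/
def TorsionFG (M : ModuleCat.{0} ℤ) : Prop :=
  ∀ d : ℕ, 0 < d → (LinearMap.ker (LinearMap.lsmul ℤ M (d : ℤ))).FG

/-- `M` is a direct factor of `N`. -/
def IsFactor (M N : ModuleCat.{0} ℤ) : Prop := ∃ (s : M ⟶ N) (r : N ⟶ M), s ≫ r = 𝟙 M

/-- There is a long exact sequence `⋯ → H^i(Z) → H^i(X) → H^i(U) → H^{i+1}(Z) → ⋯`. -/
def HasLes {k : Type} [Field k] (H : ℤ → Sch k → ModuleCat.{0} ℤ) (Z X U : Sch k) : Prop :=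
  ∃ m : LesMaps H (Equiv.addRight (1 : ℤ)) Z X U, m.IsExact

/-- The properties of the groups `H n i X = H^i(X_et, ℤ^c(n))`, `n < 0`, of the separated schemes `X` of
finite type over a finite field `k` which are used.

* `iso`: invariance under isomorphisms;
* `les`: the long exact localization sequences `⋯ → H^i(Z) → H^i(X) → H^i(U) → H^{i+1}(Z) → ⋯` for a
  closed subscheme `Z` of `X` and its complement `U`;
* `line`: homotopy invariance `H^i(X × 𝔸^1, ℤ^c(n)) = H^{i+2}(X, ℤ^c(n-1))` for affine `X`;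
* `torus`: for affine `X` the group `H^i(X)` is a direct factor of `H^{i-1}(X × 𝔾_m)` (the localization
  sequence of `X × 0` in `X × 𝔸^1` is split by the product with the coordinate);
* `covering`: for the finite flat covering `Spec A[s] / (s ^ d - u) → Spec A` of degree `d`, `u` a unit,
  the composition of the flat pull-back and the push-forward is the multiplication by `d`;
* `torsion`: the kernels of the multiplications by integers `d ≥ 1` on `H^i(X)` are finitely
  generated (they are quotients of `H^{i-1}(X_et, ℤ/d^c(n))`, which is finite as `n < 0`). -/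
structure IsEtaleMotivic (k : Type) [Field k] [Finite k] (H : ℤ → ℤ → Sch k → ModuleCat.{0} ℤ) :
    Prop where
  iso : ∀ n < 0, ∀ {X Y : Sch k}, FT True X → Nonempty (X ≅ Y) → ∀ i, Nonempty (H n i X ≅ H n i Y)
  les : ∀ n < 0, ∀ {Z X U : Sch k} (i : Z ⟶ X) (j : U ⟶ X), FT True X → IsTriple i j →
    HasLes (H n) Z X U
  line : ∀ n < 0, ∀ (i : ℤ) (A : Type) [CommRing A] [Algebra k A] [Algebra.FiniteType k A],
    Nonempty (H n i (aff k (Polynomial A)) ≅ H (n - 1) (i + 2) (aff k A))
  torus : ∀ n < 0, ∀ (i : ℤ) (A : Type) [CommRing A] [Algebra k A] [Algebra.FiniteType k A],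
    IsFactor (H n i (aff k A)) (H n (i - 1) (aff k (LaurentPolynomial A)))
  covering : ∀ n < 0, ∀ (i : ℤ) (A : Type) [CommRing A] [Algebra k A] [Algebra.FiniteType k A] (d : ℕ)
    (u : A), 0 < d → IsUnit u → MulFactor d (H n i (aff k A)) (H n i (aff k (Cyc A d u)))
  torsion : ∀ n < 0, ∀ X : Sch k, FT True X → ∀ i : ℤ, TorsionFG (H n i X)

/-- All the groups `H^i(X_et, ℤ^c(n))`, `n < 0`, are finitely generated. -/
def AllFG {k : Type} [Field k] (H : ℤ → ℤ → Sch k → ModuleCat.{0} ℤ) (X : Sch k) : Prop :=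
  ∀ n < 0, ∀ i, Module.Finite ℤ (H n i X)

end Pool.Agent.W5h68.BT
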